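import Pool.Agent.Zk99.Pers.Expec
import Pool.Agent.Zk99.Pers.PotBd

/-!
Pointwise entropic repulsion can fail under (S) and (N) alone.

There is a stationary centred non-degenerate Gaussian field on the integers whose spectral measure
satisfies (S) with order `0` and (N) with absolutely continuous part of mass `1`, for which the
supremum in (E) does not tend to zero; it is even unbounded.
-/

set_option autoImplicit false

open MeasureTheory ProbabilityTheory Filter Topology
open Pool.Agent.Zk99.Pers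

theorem Pool.Agent.Results.MP_ecc084_pr.RepulsionFails.result :
    ∃ (Ω : Type) (_ : MeasurableSpace Ω) (P : Measure Ω) (f : ℤ → Ω → ℝ)
      (μ ρ ν : Measure ℝ) (h : ℝ → ℤ → ℝ),
      IsProbabilityMeasure P ∧ IsSpectral μ ∧ IsField P f μ ∧ NonDegenerate P f ∧
      -- (S) with order `0`
      Tendsto (fun δ => Real.log (μ.real (Metric.closedBall 0 δ)) / Real.log δ) (𝓝[>] 0) (𝓝 0) ∧
      -- (N): the absolutely continuous part has mass `1`, there is no singular continuous part
      μ = ρ + ν ∧ ρ ≪ volume ∧ ρ Set.univ = 1 ∧ (∃ C : Set ℝ, C.Countable ∧ ν Cᶜ = 0) ∧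
      -- `h T` is the equilibrium potential of `B(T)`
      (∀ T, IsEqPot μ (ball T) (h T) ∧ ∀ h', IsEqPot μ (ball T) h' → h' = h T) ∧
      (∀ T, 0 < P (Per f T)) ∧
      -- the supremum in (E) is unbounded along a sequence of radii
      ∀ M : ℝ, ∃ᶠ T : ℝ in atTop, ∃ x ∈ ball T,
        M ≤ |(ell 1 0 T)⁻¹ * ∫ ω, f x ω ∂(ProbabilityTheory.cond P (Per f T)) - h T x| := by
  refine ⟨_, inferInstance, PP, ff, mu, leb, atm, fun T => Classical.choose (exists_eqPot_ball T),
    inferInstance, isSpectral_mu, isField, nonDeg,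
    order_zero (fun δ => Metric.ball_subset_closedBall), rfl, leb_ac, leb_univ, atm_countable,
    ?_, ?_, ?_⟩
  · intro T
    exact ⟨Classical.choose_spec (exists_eqPot_ball T), fun h' H' =>
      (Classical.choose_spec (exists_eqPot_ball T)).unique H'⟩
  · intro T
    have h1 : Tendsto (fun κ => (TT (κ + 1) : ℝ)) atTop atTop :=
      tendsto_natCast_atTop_atTop.comp (TT_strictMono.tendsto_atTop.comp (tendsto_add_atTop_nat 1))
    obtain ⟨κ, hκ⟩ := (h1.eventually_ge_atTop T).exists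
    have h2 := PP_Per_pos κ
    have h3 : Per ff (TT (κ + 1) : ℝ) ⊆ Per ff T := by
      intro ω hω x hx
      exact hω x (le_trans hx hκ)
    have h4 : 0 < PP (Per ff (TT (κ + 1) : ℝ)) := by
      rw [measureReal_def] at h2
      exact (ENNReal.toReal_pos_iff.1 h2).1
    exact lt_of_lt_of_le h4 (measure_mono h3)
  · intro M
    rw [frequently_atTop]
    intro a
    have hT : Tendsto (fun κ => (TT κ : ℝ)) atTop atTop :=
      tendsto_natCast_atTop_atTop.comp TT_strictMono.tendsto_atTop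
    have h1 : Tendsto (fun κ => (TT (κ + 1) : ℝ)) atTop atTop := hT.comp (tendsto_add_atTop_nat 1)
    set R : ℝ := 2 * (|M| + 4) with hR
    have hR0 : 0 ≤ R := by positivity
    obtain ⟨κ, hκ1, hκ2⟩ := ((h1.eventually_ge_atTop a).and
      (hT.eventually_ge_atTop (8 * R + 4))).exists
    set ℓ := ell 1 0 (TT (κ + 1) : ℝ) with hℓ
    have hℓ0 : 1000 ≤ ℓ := ell_ge' κ
    have hℓ1 : ℓ ≤ 2 * (TT κ : ℝ) ^ 6 := ell_le κ
    have hx := sixteen_le_TT κ
    obtain ⟨x, hx1, hx2⟩ := exists_large κ (L := R * ℓ) (by positivity) (by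
      have e1 : R * ℓ ≤ R * (2 * (TT κ : ℝ) ^ 6) := by gcongr
      have e2 : (1 : ℝ) ≤ (TT κ : ℝ) ^ 6 := one_le_pow₀ (by linarith)
      have e3 : (8 * R + 4) * (TT κ : ℝ) ^ 6 ≤ TT κ * (TT κ : ℝ) ^ 6 := by gcongr
      have e4 : (TT κ : ℝ) ^ 7 ≤ (TT κ : ℝ) ^ 12 := pow_le_pow_right₀ (by linarith) (by norm_num)
      have e5 : TT κ * (TT κ : ℝ) ^ 6 = (TT κ : ℝ) ^ 7 := by ring
      nlinarith)
    refine ⟨TT (κ + 1), hκ1, x, ?_, ?_⟩
    · rw [mem_ball_iff, Finset.mem_Icc, ← abs_le]
      have := hb1 κ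
      omega
    · have h3 := pot_le κ (Classical.choose_spec (exists_eqPot_ball (TT (κ + 1) : ℝ))) hx1
      set hh := Classical.choose (exists_eqPot_ball (TT (κ + 1) : ℝ)) x
      have hℓpos : 0 < ℓ := by linarith
      have h4 : R / 2 ≤ ℓ⁻¹ * ∫ ω, ff x ω ∂(ProbabilityTheory.cond PP (Per ff (TT (κ + 1) : ℝ))) := by
        rw [← div_eq_inv_mul, le_div_iff₀ hℓpos]
        linarith
      have h5 : M ≤ |M| := le_abs_self M
      refine le_trans ?_ (le_abs_self _)
      rw [← hℓ]
      have : R / 2 = |M| + 4 := by rw [hR]; ring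
      linarith
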